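import Pool.Agent.Q286.GB.All
import Pool.Agent.Q286.GB.Rows3
import Pool.Agent.Q120.NL.All

/-!
# The distance of Nyman, Beurling and Báez-Duarte for elliptic curves: exact asymptotics

Let `E` be an elliptic curve over `ℚ`, `c(n)` the coefficients of `L(E, s)`.  For `N ≥ 1` let

  `e_N² = inf_a ∫_1^∞ |1 - ∑_{k ≤ y} ∑_{n j = k, n ≤ N} a_n c(j) / √j|² dy/y²`

(only the numbers `c(n)` occur, no continuation), and let `d_N²` be the squared distance, in `L²` of the critical line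
`Re s = 1` with the measure `dt/(2π(1/4 + t²))`, of the constant `1` to the products `L(E, s) A(s)` with Dirichlet
polynomials `A(s) = ∑_{n ≤ N} a_n n^(-s)`.  Let

  `B = ∑_{g : Λ(E, 1 + i g) = 0} m(g)² / (1/4 + g²)`, `m(g)` = the multiplicity of the zero `1 + i g`,

so that the central point contributes `4 r²`, `r` the analytic rank.  We prove

* `e_N² ≤ d_N²`, and unconditionally `4 r² ≤ B ≤ liminf e_N² log N`;
* under the Riemann hypothesis for `E`: `B < ∞` and `d_N² log N → B`, `e_N² log N → B`;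
* if the Riemann hypothesis for `E` is false: `e_N² ≥ c > 0` for all `N`.

So the Riemann hypothesis for `E` holds if and only if `e_N → 0`, and then `e_N² log N` converges to `B`.

The same in all `L^p`, `1 ≤ p < ∞`, with all weights (`LpLaw`, file `Pool/Agent/Q120/NL/Law.lean`): let `D_{p,σ}(N)` be the
distance of the indicator function of `[1, ∞)` to the span of the functions `∑_{j ≤ y/n} c(j) / √j`, `n ≤ N`, in the norm
`(∫_1^∞ |f|^p y^(-pσ-1) dy)^(1/p)` (so `e_N = D_{2,1/2}(N)`), and `1/2 + Θ` the supremum of the real parts of the zeros of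
`Λ(E, s)`.  Then `D_{p,σ}(N) = N^(-max(0, σ - Θ) + o(1))`, and for `1 < p < ∞` the Riemann hypothesis for `E` holds if and
only if `D_{p,1/2}(N)` has the exact order `(log N)^(-(1 - 1/p))`.
-/

set_option autoImplicit false

open Complex UpperHalfPlane MatrixGroups CongruenceSubgroup MeasureTheory Filter Topology
open scoped ComplexConjugate ENNReal

namespace Pool.Agent.Results.MP_553913_nt.DistanceFormula

/-- The coefficient `a_p` of `E : y² = x³ + a x + b` at a prime `p ∤ 2 (4a³ + 27b²)`: `p` minus the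
number of pairs `(x, y)` modulo `p` with `y² ≡ x³ + a x + b (mod p)`. -/
noncomputable def ap (a b : ℤ) (p : ℕ) : ℤ :=
  (p : ℤ) - (((Finset.range p ×ˢ Finset.range p).filter
    (fun xy : ℕ × ℕ => (p : ℤ) ∣ (xy.2 : ℤ) ^ 2 -
      ((xy.1 : ℤ) ^ 3 + a * (xy.1 : ℤ) + b))).card : ℤ)

/-- The `n`-th Fourier coefficient of `f`. -/
noncomputable def coef {N : ℕ} (f : CuspForm (Gamma0 N : Subgroup (GL (Fin 2) ℝ)) 2) (n : ℕ) : ℂ :=
  (qExpansion 1 f).coeff n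

/-- `f ∈ S_2(Γ₀(N))` is the newform of the elliptic curve `E : y² = x³ + a x + b` of conductor `N` and
root number `w`: the Fourier coefficients `c(n)` of `f` are real with `c(1) = 1`, they satisfy the
Hecke relations `c(mn) = c(m) c(n)` for coprime `m`, `n` and `c(p^(j+2)) = c(p) c(p^(j+1)) - p c(p^j)`
(without the last term if `p ∣ N`), `f(-1/(Nτ)) = -w N τ² f(τ)`, `c(p) = a_p(E)` for all primes
`p ∤ 2 (4a³ + 27b²)`, `|c(p)| ≤ 2 √p` for all `p ∤ N` (Hasse) and `c(p) = 0, 1, -1` for `p ∣ N`. -/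
structure IsFormOf (a b : ℤ) (N : ℕ) (f : CuspForm (Gamma0 N : Subgroup (GL (Fin 2) ℝ)) 2) (w : ℝ) :
    Prop where
  one : coef f 1 = 1
  real : ∀ n, (coef f n).im = 0
  mul : ∀ m n : ℕ, Nat.Coprime m n → coef f (m * n) = coef f m * coef f n
  pow : ∀ p j : ℕ, p.Prime → coef f (p ^ (j + 2)) = coef f p * coef f (p ^ (j + 1)) -
      (if p ∣ N then 0 else (p : ℂ) * coef f (p ^ j))
  sign : w = 1 ∨ w = -1
  fricke : ∀ τ τ' : ℍ, (τ' : ℂ) * ((N : ℂ) * (τ : ℂ)) = -1 →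
    f τ' = -(w : ℂ) * (N : ℂ) * (τ : ℂ) ^ 2 * f τ
  points : ∀ p : ℕ, p.Prime → ¬ (p : ℤ) ∣ 2 * (4 * a ^ 3 + 27 * b ^ 2) → coef f p = (ap a b p : ℂ)
  good : ∀ p : ℕ, p.Prime → ¬ p ∣ N → ‖coef f p‖ ≤ 2 * Real.sqrt p
  bad : ∀ p : ℕ, p.Prime → p ∣ N → coef f p = 0 ∨ coef f p = 1 ∨ coef f p = -1

/-- `Λ` is the completed L-function of `f`: it is entire and
`Λ(s) = N^(s/2) (2π)^(-s) Γ(s) ∑ c(n) n^(-s)` for `Re s > 2`. -/
def IsCompleted {N : ℕ} (f : CuspForm (Gamma0 N : Subgroup (GL (Fin 2) ℝ)) 2) (Λ : ℂ → ℂ) : Prop :=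
  Differentiable ℂ Λ ∧ ∀ s : ℂ, 2 < s.re →
    Λ s = ((Real.sqrt N / (2 * Real.pi) : ℝ) : ℂ) ^ s * Complex.Gamma s *
      ∑' n : ℕ, coef f (n + 1) * ((n + 1 : ℕ) : ℂ) ^ (-s)

/-- An elliptic curve `E : y² = x³ + a x + b` over `ℚ` of conductor `N`, with its newform `f`, root number `w` and
completed L-function `Λ`. -/
structure Curve where
  /-- the coefficient of `x` -/
  a : ℤ
  /-- the constant coefficient -/
  b : ℤ
  disc : 4 * a ^ 3 + 27 * b ^ 2 ≠ 0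
  /-- the conductor -/
  N : ℕ
  pos : 0 < N
  /-- the newform -/
  f : CuspForm (Gamma0 N : Subgroup (GL (Fin 2) ℝ)) 2
  /-- the root number -/
  w : ℝ
  form : IsFormOf a b N f w
  /-- the completed L-function -/
  Λ : ℂ → ℂ
  completed : IsCompleted f Λ

/-- The L-function `L(E, s) = Λ(s) / (N^(s/2) (2π)^(-s) Γ(s))`, an entire function (it vanishes at
`s = 0, -1, -2, ...`, where `1 / Γ(s) = 0`). -/
noncomputable def L (E : Curve) (s : ℂ) : ℂ :=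
  (((Real.sqrt E.N / (2 * Real.pi) : ℝ) : ℂ) ^ s * Complex.Gamma s)⁻¹ * E.Λ s

/-- The Riemann hypothesis for `E`: all zeros of `Λ(E, s)` have real part `1`. -/
def RiemannHypothesis (E : Curve) : Prop := ∀ s : ℂ, E.Λ s = 0 → s.re = 1

/-- The analytic rank: the order of `Λ(E, s)` (and of `L(E, s)`) at `s = 1`. -/
noncomputable def rank (E : Curve) : ℕ := analyticOrderNatAt E.Λ 1

/-- `d_N² = inf_a (1/2π) ∫ |1 - L(E, 1 + it) ∑_{n ≤ N} a_n n^(-1 - it)|² dt / (1/4 + t²)`. -/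
noncomputable def d2 (E : Curve) (N : ℕ) : ℝ≥0∞ :=
  ⨅ a : ℕ → ℂ, ENNReal.ofReal (1 / (2 * Real.pi)) * ∫⁻ t : ℝ, ENNReal.ofReal
    (‖1 - L E (1 + t * Complex.I) * ∑ n ∈ Finset.Icc 1 N, a n * (n : ℂ) ^ (-(1 + t * Complex.I : ℂ))‖ ^ 2 /
      (1 / 4 + t ^ 2))

/-- `e_N² = inf_a ∫_1^∞ |1 - ∑_{k ≤ y} ∑_{n j = k, n ≤ N} a_n c(j) / √j|² dy / y²`. -/
noncomputable def e2 (E : Curve) (N : ℕ) : ℝ≥0∞ :=
  ⨅ a : ℕ → ℂ, ∫⁻ y in Set.Ioi (1 : ℝ), ENNReal.ofReal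
    (‖1 - ∑ k ∈ Finset.Icc 1 ⌊y⌋₊, ∑ p ∈ k.divisorsAntidiagonal,
      (if p.1 ≤ N then a p.1 else 0) * (coef E.f p.2 / (Real.sqrt p.2 : ℂ))‖ ^ 2 / y ^ 2)

/-- `B = ∑ m(g)² / (1/4 + g²)` over the zeros `1 + i g` of `Λ(E, s)` on the critical line, `m(g)` the multiplicity. -/
noncomputable def B (E : Curve) : ℝ≥0∞ :=
  ∑' g : {g : ℝ // E.Λ (1 + g * Complex.I) = 0},
    ENNReal.ofReal ((analyticOrderNatAt E.Λ (1 + (g : ℝ) * Complex.I) : ℝ) ^ 2 / (1 / 4 + (g : ℝ) ^ 2))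

open Q240.GS Pool.Agent.W169.HF Pool.Agent.Q286.GB

lemma formW (E : Curve) : Pool.Agent.W169.HF.IsForm E.N E.f E.w :=
  { one := E.form.one
    real := E.form.real
    mul := E.form.mul
    pow := E.form.pow
    sign := E.form.sign
    fricke := E.form.fricke
    good := E.form.good
    bad := fun p hp hpN => by
      have h1 : (1 : ℝ) ≤ Real.sqrt p := by
        rw [Real.one_le_sqrt]
        exact_mod_cast hp.one_le
      have h2 : ‖coef E.f p‖ ≤ 1 := by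
        rcases E.form.bad p hp hpN with h | h | h <;> simp [h]
      exact h2.trans h1 }

lemma obE (E : Curve) : Q240.GS.Ob (E.N : ℝ) mu2 (sdn E.N E.Λ) := by
  have : NeZero E.N := ⟨E.pos.ne'⟩
  exact ob_nf (formW E) E.completed

/-- the constant between the two normalisations -/
noncomputable def kk (E : Curve) : ℂ := 2 * (E.N : ℂ) ^ (-(1 / 4) : ℂ)

lemma kk_ne (E : Curve) : kk E ≠ 0 := by
  have hN : (E.N : ℂ) ≠ 0 := by
    have := E.pos
    exact_mod_cast this.ne'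
  unfold kk
  refine mul_ne_zero two_ne_zero ?_
  rw [Ne, Complex.cpow_eq_zero_iff]
  exact fun h => hN h.1

lemma XX_eq (E : Curve) : XX E.N (sdn E.N E.Λ) = fun s => kk E * E.Λ (s + 1 / 2) := by
  funext s
  have hN : (E.N : ℂ) ≠ 0 := by
    have := E.pos
    exact_mod_cast this.ne'
  unfold XX sdn kk
  rw [Complex.ofReal_natCast]
  have h1 : (E.N : ℂ) ^ (s / 2) * (E.N : ℂ) ^ (-((s + 1 / 2) / 2)) = (E.N : ℂ) ^ (-(1 / 4) : ℂ) := by
    rw [← cpow_add _ _ hN]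
    congr 1
    ring
  calc (E.N : ℂ) ^ (s / 2) * (2 * (E.N : ℂ) ^ (-((s + 1 / 2) / 2)) * E.Λ (s + 1 / 2)) =
      2 * ((E.N : ℂ) ^ (s / 2) * (E.N : ℂ) ^ (-((s + 1 / 2) / 2))) * E.Λ (s + 1 / 2) := by ring
    _ = _ := by rw [h1]


/-- the coefficients in the analytic normalisation -/
noncomputable def lamE (E : Curve) (n : ℕ) : ℂ := coef E.f n / (Real.sqrt n : ℂ)

lemma LL_eq (E : Curve) (s : ℂ) : Q286.GB.LL mu2 (sdn E.N E.Λ) s = L E (s + 1 / 2) :=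
  LL_sdn E.pos E.Λ s

lemma sqrt_cpow (n : ℕ) : ((Real.sqrt n : ℝ) : ℂ) = (n : ℂ) ^ (1 / 2 : ℂ) := by
  rw [Real.sqrt_eq_rpow, Complex.ofReal_cpow (Nat.cast_nonneg n)]
  push_cast
  rfl

lemma co (E : Curve) : IsCo (Q286.GB.LL mu2 (sdn E.N E.Λ)) (lamE E) := by
  have : NeZero E.N := ⟨E.pos.ne'⟩
  refine ⟨by simp [lamE], fun s hs => ?_⟩
  obtain ⟨-, -, hsum, -⟩ := Pool.Agent.W45.HF.nf2 E.N E.f E.w (formW E)
  have h1 := (hsum s (by linarith)).of_norm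
  have hs2 : 2 < (s + 1 / 2).re := by
    rw [add_re]
    norm_num
    linarith
  have hG : (((Real.sqrt E.N / (2 * Real.pi) : ℝ) : ℂ) ^ (s + 1 / 2) * Complex.Gamma (s + 1 / 2)) ≠ 0 := by
    refine mul_ne_zero ?_ (Complex.Gamma_ne_zero_of_re_pos (by linarith))
    rw [Ne, Complex.cpow_eq_zero_iff]
    have h2 : (0 : ℝ) < Real.sqrt E.N / (2 * Real.pi) := by
      have := Real.sqrt_pos.2 (show (0 : ℝ) < E.N by exact_mod_cast E.pos)
      positivity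
    exact fun h => h2.ne' (by exact_mod_cast h.1)
  have hval : L E (s + 1 / 2) = ∑' n : ℕ, coef E.f (n + 1) * ((n + 1 : ℕ) : ℂ) ^ (-(s + 1 / 2)) := by
    unfold L
    rw [E.completed.2 _ hs2, inv_mul_cancel_left₀ hG]
  rw [LL_eq, hval]
  have hterm : ∀ n : ℕ, lamE E (n + 1) * ((n + 1 : ℕ) : ℂ) ^ (-s) =
      coef E.f (n + 1) * ((n + 1 : ℕ) : ℂ) ^ (-(s + 1 / 2)) := by
    intro n
    have hn0 : ((n + 1 : ℕ) : ℂ) ≠ 0 := by exact_mod_cast Nat.succ_ne_zero n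
    unfold lamE
    rw [sqrt_cpow (n + 1), neg_add, Complex.cpow_add _ _ hn0, Complex.cpow_neg _ (1 / 2)]
    ring
  have h2 : HasSum (fun n : ℕ => lamE E (n + 1) * ((n + 1 : ℕ) : ℂ) ^ (-s))
      (∑' n : ℕ, coef E.f (n + 1) * ((n + 1 : ℕ) : ℂ) ^ (-(s + 1 / 2))) := by
    simp only [hterm]
    exact h1.hasSum
  have h3 := (hasSum_nat_add_iff (f := fun n : ℕ => lamE E n * ((n : ℕ) : ℂ) ^ (-s)) 1).1 h2
  simpa [lamE] using h3

lemma conclE (E : Curve) : Concl (L E) (lamE E) E.Λ 1 ∧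
    Pool.Agent.Q120.NL.LpLaw (lamE E) {x : ℝ | ∃ s : ℂ, E.Λ s = 0 ∧ s.re = x + 1 / 2} := by
  obtain ⟨α, ε, d, -⟩ := obE E
  obtain ⟨O, hL, hX⟩ := obj_datum facts.eul facts.obj le_rfl d (fun j => by linarith [mu2_re j])
  have h := concl facts O
  have hlam : O.lam = lamE E := by
    have h1 := isCo O.toLFn
    rw [hL] at h1
    exact h1.unique (co E)
  rw [hlam] at h
  have hX' : O.X = fun s => kk E * E.Λ (s + 1 / 2) := by
    rw [hX, ← XX_eq]
    rfl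
  refine ⟨concl_shift h (kk E) (kk_ne E) O.diff (fun s _ => ?_) (fun s => ?_), ?_⟩
  · rw [hL, LL_eq]
  · rw [hX']
  · have hN : (0 : ℝ) < E.N := by exact_mod_cast E.pos
    have h1 := Pool.Agent.Q120.NL.law_all O (Pool.Agent.Q120.NL.zero_of O two_pos hN
      (fun j => by linarith [mu2_re j]) hL hX)
    rw [hlam] at h1
    have h2 := Pool.Agent.Q120.NL.RX_shift (X := O.X) (X' := E.Λ) (k := 1 / 2) (kk_ne E) (fun s => by
      rw [hX']
      norm_num)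
    rwa [h2] at h1

lemma four_le (E : Curve) : ENNReal.ofReal (4 * (rank E : ℝ) ^ 2) ≤ B E := by
  by_cases h0 : E.Λ 1 = 0
  · have hmem : E.Λ (1 + ((0 : ℝ) : ℂ) * Complex.I) = 0 := by
      rw [ofReal_zero, zero_mul, add_zero]
      exact h0
    have h1 := ENNReal.le_tsum (f := fun g : {g : ℝ // E.Λ (1 + g * Complex.I) = 0} =>
      ENNReal.ofReal ((analyticOrderNatAt E.Λ (1 + (g : ℝ) * Complex.I) : ℝ) ^ 2 / (1 / 4 + (g : ℝ) ^ 2))) ⟨0, hmem⟩
    refine le_trans (le_of_eq ?_) h1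
    have e1 : (1 + (((0 : ℝ)) : ℂ) * Complex.I) = 1 := by simp
    show _ = ENNReal.ofReal ((analyticOrderNatAt E.Λ (1 + (((0 : ℝ)) : ℂ) * Complex.I) : ℝ) ^ 2 / (1 / 4 + (0 : ℝ) ^ 2))
    rw [e1]
    unfold rank
    congr 1
    ring
  · have h1 : rank E = 0 := by
      unfold rank analyticOrderNatAt
      rw [(E.completed.1.analyticAt 1).analyticOrderAt_eq_zero.2 h0]
      rfl
    rw [h1]
    simp

/-- **The distance formula for elliptic curves over `ℚ`.** -/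
theorem result (E : Curve) :
    (∀ N, e2 E N ≤ d2 E N) ∧
    ENNReal.ofReal (4 * (rank E : ℝ) ^ 2) ≤ B E ∧
    B E ≤ liminf (fun N : ℕ => e2 E N * ENNReal.ofReal (Real.log N)) atTop ∧
    (RiemannHypothesis E → B E ≠ ⊤ ∧
      Tendsto (fun N : ℕ => d2 E N * ENNReal.ofReal (Real.log N)) atTop (𝓝 (B E)) ∧
      Tendsto (fun N : ℕ => e2 E N * ENNReal.ofReal (Real.log N)) atTop (𝓝 (B E))) ∧
    (¬ RiemannHypothesis E → ∃ c : ℝ≥0∞, c ≠ 0 ∧ ∀ N : ℕ, c ≤ e2 E N) ∧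
    (RiemannHypothesis E ↔ Tendsto (e2 E) atTop (𝓝 0)) ∧
    (RiemannHypothesis E ↔ Tendsto (d2 E) atTop (𝓝 0)) ∧
    Pool.Agent.Q120.NL.LpLaw (fun n => coef E.f n / (Real.sqrt n : ℂ))
      {x : ℝ | ∃ s : ℂ, E.Λ s = 0 ∧ s.re = x + 1 / 2} := by
  obtain ⟨H, HL⟩ := conclE E
  have hc : ∀ g : ℝ, (((1 : ℝ)) : ℂ) + g * Complex.I = 1 + g * Complex.I := fun g => by push_cast; ring
  have hd : dd (L E) 1 = d2 E := by
    funext N
    unfold dd d2
    simp only [hc]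
  have he : ee (lamE E) = e2 E := rfl
  have hB : BB E.Λ 1 = B E := BB_pt (f := fun g : ℝ => 1 + g * Complex.I) fun g => (hc g).symm
  have h1 := H.le
  have h2 := H.low
  have h3 := H.rh
  have h4 := H.nrh
  have h5 := H.zero_e
  have h6 := H.zero_d
  rw [hd] at h1 h3 h6
  rw [hB] at h2 h3
  rw [he] at h1 h2 h3 h4 h5
  exact ⟨h1, four_le E, h2, h3, h4, h5, h6, HL⟩

end Pool.Agent.Results.MP_553913_nt.DistanceFormula
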