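import Pool.Agent.Q286.PG.All
import Pool.Agent.Q286.PG.Pw
import Pool.Agent.Q286.EW.Out2
import Pool.Agent.Q286.EW.AllU

/-!
# MP_553913_nt: an effective form of Weil's criterion for elliptic curves, stable under changes of the traces of Frobenius and of the conductor

Let `E` be an elliptic curve over `ℚ` of conductor `N`, with the numbers `a_p`, and let `W_a` be Weil's quadratic form of `E` on the functions
on `[-a, a]`: it is written through `N`, the archimedean place and the traces `t(p^k) = α_p^k + β_p^k` of the powers of Frobenius for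
`p^k ≤ exp (2 a)`, which enter with the weights `Λ(n) t(n) / n`.  The Riemann hypothesis for `E` is equivalent to its positivity for all `a` (Weil).
We also consider the form in which the conductor is replaced by a number `Q > 0`, and the weight of `n` is changed by a number `x(n)`; only the
archimedean part is kept.
The functions have degree at least `C a exp a` (trigonometric polynomials on `[-a, a]`), the infinite degree (the whole form domain) is included.
The theorem is unconditional.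

* (1) For any `h < 2 π / √N` there are `C, κ > 0` such that for one large `a` and any `Y ≤ exp a`: if the form is at least `-exp (-Y) ∫ |f|²` then all the
  zeros of `Λ(E, s)` with `|Im s| ≤ h exp a` are at distance at most `2 exp (-κ Y / a)` from the critical line `Re s = 1`.  So a lower bound of the
  spectrum gives the horizontal position of all the zeros up to the height `h exp a`, in every precision: a bound `-exp (-B a)` gives a strip, and
  an exponentially small bound (in `exp a`) gives an almost exponentially small distance.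
* (2) For any `c < 4 π / √N` and large `a`: if the numbers `a_p` at finitely many good primes are replaced by real numbers `b_p`,
  `|b_p| ≤ 2 √p` (in all powers), and `N` by `Q`, and the form is nonnegative, then `log (N / Q) ≤ exp (-c exp a)` and
  `|b_p - a_p| ≤ K max(0, log (Q / N)) + exp (-c exp a)`.  So no smaller conductor is possible, and with the true (or a smaller) conductor the
  positivity determines these `a_p`, with a doubly exponential accuracy; and if `log (Q / N) ≤ exp (-Y)` then the zeros are as in (1).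
  The same holds for arbitrary changes `x(n)` of finitely many weights.
* (3) If all weights are changed, with bounded total change, and the conductor is not (or very little) increased, and the form is nonnegative, then
  the conductor and each single weight are almost right.
* (4) A summable change `x` of the weights and a conductor `Q ≤ N` give a nonnegative form for arbitrarily large `a` if and only if the
  Riemann hypothesis holds for `E`, `Q = N` and `x = 0`.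
* (5) The Riemann hypothesis holds for `E` if and only if for arbitrarily large `a` the positivity can be reached by a change of the
  weights of total size at most `exp (ε a)` and of the logarithm of the conductor by at most `exp (ε a)`, for every `ε > 0`; and if
  and only if it can be reached by changes of the weights of the `n ≤ k` (`k` fixed, changes of any size) and of the conductor (at most `B`).
-/

set_option autoImplicit false

open UpperHalfPlane hiding I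
open Complex MatrixGroups CongruenceSubgroup MeasureTheory Filter Topology

namespace Pool.Agent.Results.MP_553913_nt.EffectiveCriterion

/-- The coefficient `a_p` of `E : y² = x³ + a x + b` at a prime `p ∤ 2 (4a³ + 27b²)`: `p` minus the
number of pairs `(x, y)` modulo `p` with `y² ≡ x³ + a x + b (mod p)`. -/
noncomputable def ap (a b : ℤ) (p : ℕ) : ℤ :=
  (p : ℤ) - (((Finset.range p ×ˢ Finset.range p).filter
    (fun xy : ℕ × ℕ => (p : ℤ) ∣ (xy.2 : ℤ) ^ 2 -
      ((xy.1 : ℤ) ^ 3 + a * (xy.1 : ℤ) + b))).card : ℤ)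

/-- The `n`-th Fourier coefficient of `f`. -/
noncomputable def coef {N : ℕ} (f : CuspForm (Gamma0 N : Subgroup (GL (Fin 2) ℝ)) 2) (n : ℕ) : ℂ :=
  (qExpansion 1 f).coeff n

/-- `f ∈ S_2(Γ₀(N))` is the newform of the elliptic curve `E : y² = x³ + a x + b` of conductor `N` and
root number `w`: the Fourier coefficients `c(n)` of `f` are real with `c(1) = 1`, they satisfy the
Hecke relations `c(mn) = c(m) c(n)` for coprime `m`, `n` and `c(p^(j+2)) = c(p) c(p^(j+1)) - p c(p^j)`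
(without the last term if `p ∣ N`), `f(-1/(Nτ)) = -w N τ² f(τ)`, `c(p) = a_p(E)` for all primes
`p ∤ 2 (4a³ + 27b²)`, `|c(p)| ≤ 2 √p` for all `p ∤ N` (Hasse) and `c(p) = 0, 1, -1` for `p ∣ N`. -/
structure IsFormOf (a b : ℤ) (N : ℕ) (f : CuspForm (Gamma0 N : Subgroup (GL (Fin 2) ℝ)) 2) (w : ℝ) :
    Prop where
  one : coef f 1 = 1
  real : ∀ n, (coef f n).im = 0
  mul : ∀ m n : ℕ, Nat.Coprime m n → coef f (m * n) = coef f m * coef f n
  pow : ∀ p j : ℕ, p.Prime → coef f (p ^ (j + 2)) = coef f p * coef f (p ^ (j + 1)) -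
      (if p ∣ N then 0 else (p : ℂ) * coef f (p ^ j))
  sign : w = 1 ∨ w = -1
  fricke : ∀ τ τ' : ℍ, (τ' : ℂ) * ((N : ℂ) * (τ : ℂ)) = -1 →
    f τ' = -(w : ℂ) * (N : ℂ) * (τ : ℂ) ^ 2 * f τ
  points : ∀ p : ℕ, p.Prime → ¬ (p : ℤ) ∣ 2 * (4 * a ^ 3 + 27 * b ^ 2) → coef f p = (ap a b p : ℂ)
  good : ∀ p : ℕ, p.Prime → ¬ p ∣ N → ‖coef f p‖ ≤ 2 * Real.sqrt p
  bad : ∀ p : ℕ, p.Prime → p ∣ N → coef f p = 0 ∨ coef f p = 1 ∨ coef f p = -1

/-- `Λ` is the completed L-function of `f`: it is entire and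
`Λ(s) = N^(s/2) (2π)^(-s) Γ(s) ∑ c(n) n^(-s)` for `Re s > 2`. -/
def IsCompleted {N : ℕ} (f : CuspForm (Gamma0 N : Subgroup (GL (Fin 2) ℝ)) 2) (Λ : ℂ → ℂ) : Prop :=
  Differentiable ℂ Λ ∧ ∀ s : ℂ, 2 < s.re →
    Λ s = ((Real.sqrt N / (2 * Real.pi) : ℝ) : ℂ) ^ s * Complex.Gamma s *
      ∑' n : ℕ, coef f (n + 1) * ((n + 1 : ℕ) : ℂ) ^ (-s)

/-- An elliptic curve `E : y² = x³ + a x + b` over `ℚ` of conductor `N`, with its newform `f`, root number `w` and
completed L-function `Λ`. -/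
structure Curve where
  /-- the coefficient of `x` -/
  a : ℤ
  /-- the constant coefficient -/
  b : ℤ
  disc : 4 * a ^ 3 + 27 * b ^ 2 ≠ 0
  /-- the conductor -/
  N : ℕ
  pos : 0 < N
  /-- the newform -/
  f : CuspForm (Gamma0 N : Subgroup (GL (Fin 2) ℝ)) 2
  /-- the root number -/
  w : ℝ
  form : IsFormOf a b N f w
  /-- the completed L-function -/
  Λ : ℂ → ℂ
  completed : IsCompleted f Λ

/-- The traces of Frobenius: for `n = p^k`, `t(p^k) = c(p^k) - p c(p^(k-2))` (without the last term if `p ∣ N` or `k = 1`; in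
Lean `p / p^2 = 0` and `c(0) = 0`).  These are the numbers `α_p^k + β_p^k`, where `1 - c(p) T + p T^2 = (1 - α_p T)(1 - β_p T)`
(`1 - c(p) T` if `p ∣ N`). -/
noncomputable def trace (E : Curve) (n : ℕ) : ℂ :=
  coef E.f n - if n.minFac ∣ E.N then 0 else (n.minFac : ℂ) * coef E.f (n / n.minFac ^ 2)

/-- The Riemann hypothesis for `E`: all zeros of `Λ(E, s)` have real part `1`. -/
def RiemannHypothesis (E : Curve) : Prop := ∀ s : ℂ, E.Λ s = 0 → s.re = 1

/-- The trigonometric polynomials of degree at most `n` on `[-a, a]`, extended by `0`. -/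
def Trig (a : ℝ) (n : ℕ) (f : ℝ → ℂ) : Prop := ∃ c : ℤ → ℂ, ∀ x : ℝ,
  f x = if |x| ≤ a then ∑ k ∈ Finset.Icc (-(n : ℤ)) n, c k * cexp ((Real.pi * k * x / a : ℝ) * I) else 0

/-- The Mellin transform of `f` in the logarithmic variable, centred at `1`. -/
noncomputable def M (f : ℝ → ℂ) (s : ℂ) : ℂ := ∫ x : ℝ, f x * cexp ((s - 1) * x)

/-- Weil's quadratic form of `E` for functions supported in `[-a, a]`: the conductor, the archimedean place (Gamma factor
`(2π)^(-s) Γ(s)`) and the prime powers `n ≤ exp (2 a)`. -/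
noncomputable def W (E : Curve) (a : ℝ) (f : ℝ → ℂ) : ℝ :=
  1 / (2 * Real.pi) * (∫ x : ℝ, (Real.log E.N - 2 * Real.log (2 * Real.pi) + 2 * (digamma (1 + x * I)).re) *
    ‖M f (1 + x * I)‖ ^ 2) -
  2 * (∑ n ∈ Finset.Icc 1 ⌊Real.exp (2 * a)⌋₊, ArithmeticFunction.vonMangoldt n / n * trace E n *
    ∫ x : ℝ, f (x + Real.log n) * (starRingEnd ℂ) (f x)).re

/-- The form domain: the square integrable functions `f` with support in `[-a, a]` and `∫ log (3 + |t|) |M f (1 + i t)|² dt < ∞`. -/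
def FormDomain (a : ℝ) (f : ℝ → ℂ) : Prop := MemLp f 2 volume ∧ (∀ x : ℝ, a < |x| → f x = 0) ∧
  Integrable fun t : ℝ => Real.log (3 + |t|) * ‖M f (1 + t * I)‖ ^ 2

/-- The functions of degree at most `ν ≤ ∞`: trigonometric polynomials, or (`ν = ∞`) all functions in the form domain. -/
def Degree (a : ℝ) (ν : ℕ∞) (f : ℝ → ℂ) : Prop := (∃ n : ℕ, ν = n ∧ Trig a n f) ∨ (ν = ⊤ ∧ FormDomain a f)

/-- The degree `ν ≤ ∞` is at least `x`. -/
def Large (x : ℝ) (ν : ℕ∞) : Prop := ∀ n : ℕ, ν = n → x ≤ n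

/-- Weil's quadratic form of `E` with the number `Q` in place of the conductor `N` (which enters through `log N ∫ |f|²`) and with the weight
`Λ(n) trace E n / n` of `n` (`n ≥ 2`) changed by `x n`. -/
noncomputable def V (E : Curve) (Q : ℝ) (x : ℕ → ℂ) (a : ℝ) (f : ℝ → ℂ) : ℝ :=
  W E a f + Real.log (Q / E.N) * (∫ y : ℝ, ‖f y‖ ^ 2) -
  2 * (∑ n ∈ Finset.Icc 2 ⌊Real.exp (2 * a)⌋₊, x n * ∫ y : ℝ, f (y + Real.log n) * (starRingEnd ℂ) (f y)).re

/-- The form is nonnegative on the functions of degree at most `ν` on `[-a, a]`. -/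
def Nonneg (E : Curve) (a : ℝ) (ν : ℕ∞) (Q : ℝ) (x : ℕ → ℂ) : Prop := ∀ f : ℝ → ℂ, Degree a ν f → 0 ≤ V E Q x a f

/-- The numbers `α^k + β^k`, where `1 - b T + p T² = (1 - α T)(1 - β T)`. -/
noncomputable def power (p : ℕ) (b : ℝ) : ℕ → ℝ
  | 0 => 2
  | 1 => b
  | k + 2 => b * power p b (k + 1) - p * power p b k

/-- The change of the weights when `a_p` is replaced by the real number `b p`, for the primes `p ∈ P`: the trace at `n = p^k`
becomes `power p (b p) k`. -/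
noncomputable def change (E : Curve) (P : Finset ℕ) (b : ℕ → ℝ) (n : ℕ) : ℂ :=
  if n.minFac ∈ P then ArithmeticFunction.vonMangoldt n / n *
    ((power n.minFac (b n.minFac) (n.factorization n.minFac) : ℝ) - trace E n) else 0

lemma formW (E : Curve) : Pool.Agent.W169.HF.IsForm E.N E.f E.w :=
  { one := E.form.one
    real := E.form.real
    mul := E.form.mul
    pow := E.form.pow
    sign := E.form.sign
    fricke := E.form.fricke
    good := E.form.good
    bad := fun p hp hpN => by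
      have h1 : (1 : ℝ) ≤ Real.sqrt p := by
        rw [Real.one_le_sqrt]
        exact_mod_cast hp.one_le
      have h2 : ‖coef E.f p‖ ≤ 1 := by
        rcases E.form.bad p hp hpN with h | h | h <;> simp [h]
      exact h2.trans h1 }

lemma power_eq {p : ℕ} {b : ℝ} {α : Fin 2 → ℂ} (h1 : α 0 + α 1 = b) (h2 : α 0 * α 1 = p) (k : ℕ) : ((power p b k : ℝ) : ℂ) = ∑ j, α j ^ k := by
  refine Pool.Agent.Q286.PG.seq_pow h1 h2 (t := fun k => ((power p b k : ℝ) : ℂ)) ?_ ?_ (fun k => ?_) k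
  · simp [power]
  · simp [power]
  · simp only [power]
    push_cast
    rfl

open Pool.Agent.Q286 in
lemma outL (E : Curve) : PG.OutP (V E) E.N (RiemannHypothesis E) 1 (fun a => Real.exp a) (4 * Real.pi / Real.sqrt E.N) := by
  have : NeZero E.N := ⟨E.pos.ne'⟩
  have hN : (0 : ℝ) < E.N := by exact_mod_cast E.pos
  obtain ⟨L, hm, hQ, h1, h2, k, hk, h3⟩ := XG.exE2 (formW E) E.completed.1 E.completed.2
  have hW : ∀ (a : ℝ) (g : ℝ → ℂ), W E a g = TR.W L a g := fun a g => (h1 a g).symm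
  have H := PG.outP (L := L) PG.jp PG.pw (V := V E) (Q0 := E.N) (R := RiemannHypothesis E) (c := 1) hQ
    (TR.rh_iff (L := L) (Λ := E.Λ) (c := 1) (r := 1) (by norm_num) hk h3).symm
    (fun Q x a f _ _ _ => by
      have e1 : Real.log (Q / E.N) = -Real.log (E.N / Q) := by rw [← Real.log_inv, inv_div]
      unfold V PG.Vx
      rw [hW, e1]
      unfold TR.N PG.Cr
      ring)
  have e1 : PG.EE L = fun a => Real.exp a := by
    funext a
    unfold PG.EE
    rw [hm]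
    congr 1
    push_cast
    ring
  have e2 : PG.qq L = 4 * Real.pi / Real.sqrt E.N := by
    unfold PG.qq
    rw [hm, hQ, Real.rpow_neg hN.le, Real.sqrt_eq_rpow]
    push_cast
    ring
  rw [e1, e2] at H
  exact H

open Pool.Agent.Q286 in
/-- all conclusions, with the zeros -/
lemma outLE (E : Curve) : EW.OutE (V E) E.N (fun s => E.Λ s = 0) 1 1 (fun a => Real.exp a) (4 * Real.pi / Real.sqrt E.N)
    (2 * Real.pi / Real.sqrt E.N) := by
  have : NeZero E.N := ⟨E.pos.ne'⟩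
  have hN : (0 : ℝ) < E.N := by exact_mod_cast E.pos
  obtain ⟨L, hm, hQ, h1, h2, k, hk, h3⟩ := XG.exE2 (formW E) E.completed.1 E.completed.2
  have hW : ∀ (a : ℝ) (g : ℝ → ℂ), W E a g = TR.W L a g := fun a g => (h1 a g).symm
  have H := EW.outE (L := L) EW.effU_all PG.jp PG.pw (V := V E) (Q0 := E.N) (Z := fun s => E.Λ s = 0) (R := RiemannHypothesis E)
    (r := 1) (c := 1) hQ (TR.rh_iff (L := L) (Λ := E.Λ) (c := 1) (r := 1) (by norm_num) hk h3).symm
    (fun s hs => ⟨s - 1 / 2, by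
      rw [h3, show s - 1 / 2 + ((1 : ℂ) - 1 / 2) = s by ring]
      show k * E.Λ s = 0
      rw [hs, mul_zero], by simp, by
      rw [Complex.sub_re]
      norm_num
      ring⟩)
    (fun Q x a f _ _ _ => by
      have e1 : Real.log (Q / E.N) = -Real.log (E.N / Q) := by rw [← Real.log_inv, inv_div]
      unfold V PG.Vx
      rw [hW, e1]
      unfold TR.N PG.Cr
      ring)
  have e1 : PG.EE L = fun a => Real.exp a := by
    funext a
    unfold PG.EE
    rw [hm]
    congr 1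
    push_cast
    ring
  have e2 : PG.qq L = 4 * Real.pi / Real.sqrt E.N := by
    unfold PG.qq
    rw [hm, hQ, Real.rpow_neg hN.le, Real.sqrt_eq_rpow]
    push_cast
    ring
  have e3 : EW.hh L = 2 * Real.pi / Real.sqrt E.N := by
    unfold EW.hh
    rw [hm, hQ, Real.rpow_neg hN.le, Real.sqrt_eq_rpow]
    push_cast
    ring
  rw [e1, e2, e3] at H
  exact H

open Pool.Agent.Q286 in
/-- the part on the changes of finitely many traces or weights -/
lemma primes (E : Curve) {c h : ℝ} (hc : c < 4 * Real.pi / Real.sqrt E.N) (hh : h < 2 * Real.pi / Real.sqrt E.N) :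
    ∃ C κ : ℝ, 0 < C ∧ 0 < κ ∧
    (∀ P : Finset ℕ, (∀ p ∈ P, p.Prime ∧ ¬ p ∣ E.N) → ∃ K A : ℝ, ∀ (a : ℝ) (ν : ℕ∞), A ≤ a → Large (C * a * Real.exp a) ν →
      ∀ (Q : ℝ) (b : ℕ → ℝ), 0 < Q → (∀ p ∈ P, |b p| ≤ 2 * Real.sqrt p) → Nonneg E a ν Q (change E P b) →
        Real.log (E.N / Q) ≤ Real.exp (-(c * Real.exp a)) ∧
        (∀ p ∈ P, ‖(b p : ℂ) - coef E.f p‖ ≤ K * max 0 (Real.log (Q / E.N)) + Real.exp (-(c * Real.exp a))) ∧
        ∀ Y : ℝ, Y ≤ Real.exp a → Real.log (Q / E.N) ≤ Real.exp (-Y) →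
          ∀ s : ℂ, E.Λ s = 0 → |s.im| ≤ h * Real.exp a → |s.re - 1| ≤ 2 * Real.exp (-(κ * Y / a))) ∧
    ∀ k : ℕ, ∃ K A : ℝ, ∀ (a : ℝ) (ν : ℕ∞), A ≤ a → Large (C * a * Real.exp a) ν →
      ∀ (Q : ℝ) (x : ℕ → ℂ), 0 < Q → (∀ n, k < n → x n = 0) → Nonneg E a ν Q x →
        Real.log (E.N / Q) ≤ Real.exp (-(c * Real.exp a)) ∧
        (∀ n, 2 ≤ n → n ≤ k → ‖x n‖ ≤ K * max 0 (Real.log (Q / E.N)) + Real.exp (-(c * Real.exp a))) ∧
        ∀ Y : ℝ, Y ≤ Real.exp a → Real.log (Q / E.N) ≤ Real.exp (-Y) →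
          ∀ s : ℂ, E.Λ s = 0 → |s.im| ≤ h * Real.exp a → |s.re - 1| ≤ 2 * Real.exp (-(κ * Y / a)) := by
  have : NeZero E.N := ⟨E.pos.ne'⟩
  obtain ⟨C, κ, hC, hκ, h0, h9⟩ := EW.OutE.eul (outLE E) Real.tendsto_exp_atTop (fun a => Real.exp_pos a) hc hh
  refine ⟨C, κ, hC, hκ, fun P hP => ?_, fun k => ?_⟩
  swap
  · obtain ⟨K, A, -, h1⟩ := h0 k
    exact ⟨K, A, h1⟩
  have hlog : ∀ p ∈ P, 0 < Real.log p := fun p hp => Real.log_pos (by exact_mod_cast (hP p hp).1.one_lt)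
  set T : ℝ := ∑ p ∈ P, (p : ℝ) / Real.log p with hT
  have hTp : ∀ p ∈ P, (p : ℝ) / Real.log p ≤ T := fun p hp =>
    Finset.single_le_sum (f := fun p : ℕ => (p : ℝ) / Real.log p) (fun q hq => div_nonneg (Nat.cast_nonneg _) (hlog q hq).le) hp
  have hρ : (Real.sqrt 2)⁻¹ < 1 := inv_lt_one_of_one_lt₀ (Real.lt_sqrt_of_sq_lt (by norm_num))
  obtain ⟨K, A, hK, h1⟩ := h9 P (fun p hp => (hP p hp).1.two_le) 2 (Real.sqrt 2)⁻¹ hρ T
    (Finset.sum_nonneg fun p hp => div_nonneg (Nat.cast_nonneg _) (hlog p hp).le)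
  refine ⟨K, A, fun a ν ha hν Q b hQ hb hp => ?_⟩
  -- the roots
  have hα : ∀ p ∈ P, ∃ α : Fin 2 → ℂ, (∀ j, ‖α j‖ = Real.sqrt p) ∧ α 0 + α 1 = coef E.f p ∧ α 0 * α 1 = p ∧
      ∀ k, 1 ≤ k → trace E (p ^ k) = ∑ j, α j ^ k := fun p hp => PG.trF_pow (formW E) (hP p hp).1 (hP p hp).2
  have hβ : ∀ p ∈ P, ∃ α : Fin 2 → ℂ, (∀ j, ‖α j‖ = Real.sqrt p) ∧ α 0 + α 1 = b p ∧ α 0 * α 1 = (p : ℝ) := fun p hp =>
    PG.two_roots (Nat.cast_nonneg p) (hb p hp)
  choose! α hα1 hα2 hα3 hα4 using hα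
  choose! β hβ1 hβ2 hβ3 using hβ
  have hnorm : ∀ p ∈ P, ∀ z : ℂ, ‖z‖ = Real.sqrt p → ‖z / p‖ ≤ (Real.sqrt 2)⁻¹ := by
    intro p hp z hz
    have hp2 : (2 : ℝ) ≤ p := by exact_mod_cast (hP p hp).1.two_le
    have hs : 0 < Real.sqrt p := Real.sqrt_pos.2 (by linarith)
    have e1 : ‖(p : ℂ)‖ = Real.sqrt p * Real.sqrt p := by
      rw [Complex.norm_natCast, Real.mul_self_sqrt (by linarith)]
    rw [norm_div, hz, e1, div_mul_cancel_left₀ hs.ne']
    exact inv_anti₀ (Real.sqrt_pos.2 (by norm_num)) (Real.sqrt_le_sqrt hp2)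
  have hx : ∀ p ∈ P, ∀ k, 1 ≤ k → change E P b (p ^ k) = Real.log p * (∑ j, (β p j / p) ^ k - ∑ j, (α p j / p) ^ k) := by
    intro p hp k hk
    have hpp := (hP p hp).1
    have hp0 : (p : ℂ) ≠ 0 := by exact_mod_cast hpp.ne_zero
    unfold change
    rw [hpp.pow_minFac (by omega), if_pos hp, ArithmeticFunction.vonMangoldt_apply_pow (by omega), ArithmeticFunction.vonMangoldt_apply_prime hpp,
      hpp.factorization_pow, Finsupp.single_eq_same, power_eq (hβ2 p hp) (by rw [hβ3 p hp]; simp) k, hα4 p hp k hk]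
    simp only [div_pow, ← Finset.sum_div]
    push_cast
    field_simp
  obtain ⟨h2, h3, h3z⟩ := h1 a ν ha hν Q (change E P b) (fun p j => α p j / p) (fun p j => β p j / p) hQ
    (fun p hp j => ⟨hnorm p hp _ (hα1 p hp j), hnorm p hp _ (hβ1 p hp j)⟩)
    (fun n hn hn2 => by
      unfold change
      by_cases h4 : n.minFac ∈ P
      · rw [if_pos h4]
        have h5 : ArithmeticFunction.vonMangoldt n = 0 := by
          rw [ArithmeticFunction.vonMangoldt_eq_zero_iff]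
          rintro ⟨p, k, hp, hk, rfl⟩
          have hp' := hp.nat_prime
          rw [hp'.pow_minFac (by omega)] at h4
          exact hn2 p h4 k rfl
        rw [h5]
        simp
      · rw [if_neg h4])
    hx hp
  refine ⟨h2, fun p hp => le_trans ?_ (h3 p hp 1 le_rfl), h3z⟩
  have hl := hlog p hp
  have hp0 : (p : ℂ) ≠ 0 := by exact_mod_cast (hP p hp).1.ne_zero
  have hp1 : (0 : ℝ) < p := by exact_mod_cast (hP p hp).1.pos
  have e1 : change E P b (p ^ 1) = (Real.log p / p : ℝ) * ((b p : ℂ) - coef E.f p) := by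
    rw [hx p hp 1 le_rfl]
    simp only [pow_one, ← Finset.sum_div, Fin.sum_univ_two]
    rw [hα2 p hp, hβ2 p hp]
    push_cast
    field_simp
  rw [e1, norm_mul, Complex.norm_real, Real.norm_of_nonneg (div_nonneg hl.le hp1.le), ← mul_assoc]
  refine le_mul_of_one_le_left (norm_nonneg _) ?_
  calc (1 : ℝ) = (p : ℝ) / Real.log p * (Real.log p / p) := by field_simp
    _ ≤ _ := mul_le_mul_of_nonneg_right (hTp p hp) (div_nonneg hl.le hp1.le)

/-- the form with the conductor `N exp d` -/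
lemma V_zero (E : Curve) {d : ℝ} {a : ℝ} (f : ℝ → ℂ) : V E (E.N * Real.exp d) (fun _ => 0) a f = W E a f + d * (∫ y : ℝ, ‖f y‖ ^ 2) := by
  have hQ : (0 : ℝ) < E.N := by exact_mod_cast E.pos
  unfold V
  rw [mul_div_assoc, mul_comm (E.N : ℝ), div_mul_cancel₀ _ hQ.ne', Real.log_exp]
  simp

/-- **The theorem.** -/
theorem result (E : Curve) :
    (∀ c h : ℝ, c < 4 * Real.pi / Real.sqrt E.N → h < 2 * Real.pi / Real.sqrt E.N → ∃ C κ : ℝ, 0 < C ∧ 0 < κ ∧
      (∃ A : ℝ, ∀ (a Y : ℝ) (ν : ℕ∞), A ≤ a → Y ≤ Real.exp a → Large (C * a * Real.exp a) ν →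
        (∀ f : ℝ → ℂ, Degree a ν f → -(Real.exp (-Y) * ∫ y : ℝ, ‖f y‖ ^ 2) ≤ W E a f) →
          ∀ s : ℂ, E.Λ s = 0 → |s.im| ≤ h * Real.exp a → |s.re - 1| ≤ 2 * Real.exp (-(κ * Y / a))) ∧
      (∀ P : Finset ℕ, (∀ p ∈ P, p.Prime ∧ ¬ p ∣ E.N) → ∃ K A : ℝ, ∀ (a : ℝ) (ν : ℕ∞), A ≤ a → Large (C * a * Real.exp a) ν →
        ∀ (Q : ℝ) (b : ℕ → ℝ), 0 < Q → (∀ p ∈ P, |b p| ≤ 2 * Real.sqrt p) → Nonneg E a ν Q (change E P b) →
          Real.log (E.N / Q) ≤ Real.exp (-(c * Real.exp a)) ∧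
          (∀ p ∈ P, ‖(b p : ℂ) - coef E.f p‖ ≤ K * max 0 (Real.log (Q / E.N)) + Real.exp (-(c * Real.exp a))) ∧
          ∀ Y : ℝ, Y ≤ Real.exp a → Real.log (Q / E.N) ≤ Real.exp (-Y) →
            ∀ s : ℂ, E.Λ s = 0 → |s.im| ≤ h * Real.exp a → |s.re - 1| ≤ 2 * Real.exp (-(κ * Y / a))) ∧
      ∀ k : ℕ, ∃ K A : ℝ, ∀ (a : ℝ) (ν : ℕ∞), A ≤ a → Large (C * a * Real.exp a) ν →
        ∀ (Q : ℝ) (x : ℕ → ℂ), 0 < Q → (∀ n, k < n → x n = 0) → Nonneg E a ν Q x →
          Real.log (E.N / Q) ≤ Real.exp (-(c * Real.exp a)) ∧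
          (∀ n, 2 ≤ n → n ≤ k → ‖x n‖ ≤ K * max 0 (Real.log (Q / E.N)) + Real.exp (-(c * Real.exp a))) ∧
          ∀ Y : ℝ, Y ≤ Real.exp a → Real.log (Q / E.N) ≤ Real.exp (-Y) →
            ∀ s : ℂ, E.Λ s = 0 → |s.im| ≤ h * Real.exp a → |s.re - 1| ≤ 2 * Real.exp (-(κ * Y / a))) ∧
    ∃ C : ℝ, 0 < C ∧
      (∀ (B ε : ℝ) (k : ℕ), 0 < ε → ∃ A δ : ℝ, 0 < δ ∧ ∀ (a : ℝ) (ν : ℕ∞), A ≤ a → Large (C * a * Real.exp a) ν →
        ∀ (Q : ℝ) (x : ℕ → ℂ), 0 < Q → Real.log (Q / E.N) ≤ δ → ∑ n ∈ Finset.Icc 2 ⌊Real.exp (2 * a)⌋₊, ‖x n‖ ≤ B → Nonneg E a ν Q x →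
          Real.log (E.N / Q) ≤ ε ∧ ∀ n, 2 ≤ n → n ≤ k → ‖x n‖ ≤ ε) ∧
      (∀ (Q : ℝ) (x : ℕ → ℂ), 0 < Q → Q ≤ E.N → (Summable fun n => ‖x n‖) →
        ((∀ A : ℝ, ∃ (a : ℝ) (ν : ℕ∞), A ≤ a ∧ Large (C * a * Real.exp a) ν ∧ Nonneg E a ν Q x) ↔
          RiemannHypothesis E ∧ Q = E.N ∧ ∀ n, 2 ≤ n → x n = 0)) ∧
      (RiemannHypothesis E ↔ ∀ ε : ℝ, 0 < ε → ∀ A : ℝ, ∃ (a : ℝ) (ν : ℕ∞) (Q : ℝ) (x : ℕ → ℂ), A ≤ a ∧ Large (C * a * Real.exp a) ν ∧
        0 < Q ∧ Real.log (Q / E.N) ≤ Real.exp (ε * a) ∧ ∑ n ∈ Finset.Icc 2 ⌊Real.exp (2 * a)⌋₊, ‖x n‖ ≤ Real.exp (ε * a) ∧ Nonneg E a ν Q x) ∧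
      ∀ (k : ℕ) (B : ℝ), E.N ≤ B → (RiemannHypothesis E ↔ ∀ A : ℝ, ∃ (a : ℝ) (ν : ℕ∞) (Q : ℝ) (x : ℕ → ℂ), A ≤ a ∧
        Large (C * a * Real.exp a) ν ∧ 0 < Q ∧ Q ≤ B ∧ (∀ n, k < n → x n = 0) ∧ Nonneg E a ν Q x) := by
  refine ⟨fun c h hc hh => ?_, (outL E).bnd⟩
  obtain ⟨C, κ, hC, hκ, h1, h2⟩ := primes E hc hh
  refine ⟨C, κ, hC, hκ, ?_, h1, h2⟩
  obtain ⟨K, A, h3⟩ := h2 0
  have hQ : (0 : ℝ) < E.N := by exact_mod_cast E.pos
  refine ⟨A, fun a Y ν ha hY hν hp => ?_⟩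
  refine (h3 a ν ha hν (E.N * Real.exp (Real.exp (-Y))) (fun _ => 0) (by positivity) (fun _ _ => rfl) (fun f hf => ?_)).2.2 Y hY ?_
  · rw [V_zero]
    linarith [hp f hf]
  · rw [mul_div_assoc, mul_comm (E.N : ℝ), div_mul_cancel₀ _ hQ.ne', Real.log_exp]

end Pool.Agent.Results.MP_553913_nt.EffectiveCriterion
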