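import Pool.Agent.Q286.XG.AllN
import Pool.Agent.Q286.XG.EQ2

/-!
# Extremal functions of Weil's quadratic form of an elliptic curve, of all degrees

Let `E` be an elliptic curve over `ℚ` of conductor `N`, `t(p^k) = α_p^k + β_p^k` the traces of the powers of Frobenius, `a > 0`, and
`W_a` Weil's quadratic form of `E` on the functions on `[-a, a]`, written through `N`, the archimedean place and the numbers `t(p^k)`
with `p^k ≤ exp (2 a)`.  Let `M f s = ∫ f(x) exp ((s - 1) x) dx`.  An extremal function of degree `ν` minimises `W_a` under the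
condition `M f 1 = 1`, among the trigonometric polynomials of degree at most `ν` on `[-a, a]`, or (`ν = ∞`) among all functions in the
form domain of `W_a`: then there is no truncation, and only the length of the interval remains.

Assume the Riemann hypothesis for `E`, and let `r` be the analytic rank of `E` and
`Xred s = ∏ (1 - ((s - 1) / (ρ - 1))²)` the product over the distinct zeros in the upper half plane.

* For every `a > 0` and every degree `ν ≤ ∞` there is exactly one extremal function `f`; it is even and real, and all zeros of `M f`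
  are on the line `Re s = 1`.
* The smallest value `W_a f` is larger than the analytic rank `r`, and tends to it: `W_a f ≤ r + exp (- b a² log a)` for every `b` and all
  degrees `ν ≥ K(b) a²`.
* `M f` tends to `Xred`, locally uniformly, and every zero of `Xred` is within `exp (- b a² log a)` of a zero of `M f`.
* For the degrees `ν ≥ K(b) a exp a` (in particular for `ν = ∞`) the accuracy is doubly exponential: the distances to the rank and
  to the zeros are at most `exp (- b exp a)` for every `b < 4 π / √N`.  (In terms of the bound `X = exp (2 a)` for the primes: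
  `exp (- b √X)`.)

If the Riemann hypothesis for `E` fails there is no extremal function for large `a`, in any degree `n(a)` with `n(a) / a → ∞`: the form
is not bounded from below under the condition `M f 1 = 1`.  So the Riemann hypothesis for `E` holds if and only if there are extremal
functions for arbitrarily large `a`, in the degrees `n(a)`, and also if and only if there are for `ν = ∞`.
-/

set_option autoImplicit false

open UpperHalfPlane hiding I
open Complex MatrixGroups CongruenceSubgroup MeasureTheory Filter Topology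

namespace Pool.Agent.Results.MP_553913_nt.ExtremalFunctions

/-- The coefficient `a_p` of `E : y² = x³ + a x + b` at a prime `p ∤ 2 (4a³ + 27b²)`: `p` minus the
number of pairs `(x, y)` modulo `p` with `y² ≡ x³ + a x + b (mod p)`. -/
noncomputable def ap (a b : ℤ) (p : ℕ) : ℤ :=
  (p : ℤ) - (((Finset.range p ×ˢ Finset.range p).filter
    (fun xy : ℕ × ℕ => (p : ℤ) ∣ (xy.2 : ℤ) ^ 2 -
      ((xy.1 : ℤ) ^ 3 + a * (xy.1 : ℤ) + b))).card : ℤ)

/-- The `n`-th Fourier coefficient of `f`. -/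
noncomputable def coef {N : ℕ} (f : CuspForm (Gamma0 N : Subgroup (GL (Fin 2) ℝ)) 2) (n : ℕ) : ℂ :=
  (qExpansion 1 f).coeff n

/-- `f ∈ S_2(Γ₀(N))` is the newform of the elliptic curve `E : y² = x³ + a x + b` of conductor `N` and
root number `w`: the Fourier coefficients `c(n)` of `f` are real with `c(1) = 1`, they satisfy the
Hecke relations `c(mn) = c(m) c(n)` for coprime `m`, `n` and `c(p^(j+2)) = c(p) c(p^(j+1)) - p c(p^j)`
(without the last term if `p ∣ N`), `f(-1/(Nτ)) = -w N τ² f(τ)`, `c(p) = a_p(E)` for all primes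
`p ∤ 2 (4a³ + 27b²)`, `|c(p)| ≤ 2 √p` for all `p ∤ N` (Hasse) and `c(p) = 0, 1, -1` for `p ∣ N`. -/
structure IsFormOf (a b : ℤ) (N : ℕ) (f : CuspForm (Gamma0 N : Subgroup (GL (Fin 2) ℝ)) 2) (w : ℝ) :
    Prop where
  one : coef f 1 = 1
  real : ∀ n, (coef f n).im = 0
  mul : ∀ m n : ℕ, Nat.Coprime m n → coef f (m * n) = coef f m * coef f n
  pow : ∀ p j : ℕ, p.Prime → coef f (p ^ (j + 2)) = coef f p * coef f (p ^ (j + 1)) -
      (if p ∣ N then 0 else (p : ℂ) * coef f (p ^ j))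
  sign : w = 1 ∨ w = -1
  fricke : ∀ τ τ' : ℍ, (τ' : ℂ) * ((N : ℂ) * (τ : ℂ)) = -1 →
    f τ' = -(w : ℂ) * (N : ℂ) * (τ : ℂ) ^ 2 * f τ
  points : ∀ p : ℕ, p.Prime → ¬ (p : ℤ) ∣ 2 * (4 * a ^ 3 + 27 * b ^ 2) → coef f p = (ap a b p : ℂ)
  good : ∀ p : ℕ, p.Prime → ¬ p ∣ N → ‖coef f p‖ ≤ 2 * Real.sqrt p
  bad : ∀ p : ℕ, p.Prime → p ∣ N → coef f p = 0 ∨ coef f p = 1 ∨ coef f p = -1

/-- `Λ` is the completed L-function of `f`: it is entire and
`Λ(s) = N^(s/2) (2π)^(-s) Γ(s) ∑ c(n) n^(-s)` for `Re s > 2`. -/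
def IsCompleted {N : ℕ} (f : CuspForm (Gamma0 N : Subgroup (GL (Fin 2) ℝ)) 2) (Λ : ℂ → ℂ) : Prop :=
  Differentiable ℂ Λ ∧ ∀ s : ℂ, 2 < s.re →
    Λ s = ((Real.sqrt N / (2 * Real.pi) : ℝ) : ℂ) ^ s * Complex.Gamma s *
      ∑' n : ℕ, coef f (n + 1) * ((n + 1 : ℕ) : ℂ) ^ (-s)

/-- An elliptic curve `E : y² = x³ + a x + b` over `ℚ` of conductor `N`, with its newform `f`, root number `w` and
completed L-function `Λ`. -/
structure Curve where
  /-- the coefficient of `x` -/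
  a : ℤ
  /-- the constant coefficient -/
  b : ℤ
  disc : 4 * a ^ 3 + 27 * b ^ 2 ≠ 0
  /-- the conductor -/
  N : ℕ
  pos : 0 < N
  /-- the newform -/
  f : CuspForm (Gamma0 N : Subgroup (GL (Fin 2) ℝ)) 2
  /-- the root number -/
  w : ℝ
  form : IsFormOf a b N f w
  /-- the completed L-function -/
  Λ : ℂ → ℂ
  completed : IsCompleted f Λ

/-- The traces of Frobenius: for `n = p^k`, `t(p^k) = c(p^k) - p c(p^(k-2))` (without the last term if `p ∣ N` or `k = 1`; in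
Lean `p / p^2 = 0` and `c(0) = 0`).  These are the numbers `α_p^k + β_p^k`, where `1 - c(p) T + p T^2 = (1 - α_p T)(1 - β_p T)`
(`1 - c(p) T` if `p ∣ N`). -/
noncomputable def trace (E : Curve) (n : ℕ) : ℂ :=
  coef E.f n - if n.minFac ∣ E.N then 0 else (n.minFac : ℂ) * coef E.f (n / n.minFac ^ 2)

/-- The Riemann hypothesis for `E`: all zeros of `Λ(E, s)` have real part `1`. -/
def RiemannHypothesis (E : Curve) : Prop := ∀ s : ℂ, E.Λ s = 0 → s.re = 1

/-- The trigonometric polynomials of degree at most `n` on `[-a, a]`, extended by `0`. -/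
def Trig (a : ℝ) (n : ℕ) (f : ℝ → ℂ) : Prop := ∃ c : ℤ → ℂ, ∀ x : ℝ,
  f x = if |x| ≤ a then ∑ k ∈ Finset.Icc (-(n : ℤ)) n, c k * cexp ((Real.pi * k * x / a : ℝ) * I) else 0

/-- The Mellin transform of `f` in the logarithmic variable, centred at `1`. -/
noncomputable def M (f : ℝ → ℂ) (s : ℂ) : ℂ := ∫ x : ℝ, f x * cexp ((s - 1) * x)

/-- Weil's quadratic form of `E` for functions supported in `[-a, a]`: the conductor, the archimedean place (Gamma factor
`(2π)^(-s) Γ(s)`) and the prime powers `n ≤ exp (2 a)`. -/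
noncomputable def W (E : Curve) (a : ℝ) (f : ℝ → ℂ) : ℝ :=
  1 / (2 * Real.pi) * (∫ x : ℝ, (Real.log E.N - 2 * Real.log (2 * Real.pi) + 2 * (digamma (1 + x * I)).re) *
    ‖M f (1 + x * I)‖ ^ 2) -
  2 * (∑ n ∈ Finset.Icc 1 ⌊Real.exp (2 * a)⌋₊, ArithmeticFunction.vonMangoldt n / n * trace E n *
    ∫ x : ℝ, f (x + Real.log n) * (starRingEnd ℂ) (f x)).re

/-- The reduced function: the product over the distinct zeros of `Λ(E, s)` in the upper half plane. -/
noncomputable def Xred (E : Curve) (s : ℂ) : ℂ :=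
  ∏' ρ : {ρ : ℂ // E.Λ ρ = 0 ∧ 0 < ρ.im}, (1 - (s - 1) ^ 2 / ((ρ : ℂ) - 1) ^ 2)

/-- The form domain: the square integrable functions `f` with support in `[-a, a]` and `∫ log (3 + |t|) |M f (1 + i t)|² dt < ∞`. -/
def FormDomain (a : ℝ) (f : ℝ → ℂ) : Prop := MemLp f 2 volume ∧ (∀ x : ℝ, a < |x| → f x = 0) ∧
  Integrable fun t : ℝ => Real.log (3 + |t|) * ‖M f (1 + t * I)‖ ^ 2

/-- The functions of degree at most `ν ≤ ∞`: trigonometric polynomials, or (`ν = ∞`) all functions in the form domain. -/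
def Degree (a : ℝ) (ν : ℕ∞) (f : ℝ → ℂ) : Prop := (∃ n : ℕ, ν = n ∧ Trig a n f) ∨ (ν = ⊤ ∧ FormDomain a f)

/-- `f` is an extremal function of degree `ν`: it minimises Weil's form under the condition `M f 1 = 1`. -/
def Extremal (E : Curve) (a : ℝ) (ν : ℕ∞) (f : ℝ → ℂ) : Prop :=
  Degree a ν f ∧ M f 1 = 1 ∧ ∀ g : ℝ → ℂ, Degree a ν g → M g 1 = 1 → W E a f ≤ W E a g

/-- The analytic rank: the order of the zero of `Λ(E, s)` at `s = 1`. -/
noncomputable def rank (E : Curve) : ℕ := analyticOrderNatAt E.Λ 1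

/-- The degree `ν ≤ ∞` is at least `x`. -/
def Large (x : ℝ) (ν : ℕ∞) : Prop := ∀ n : ℕ, ν = n → x ≤ n

lemma formW (E : Curve) : Pool.Agent.W169.HF.IsForm E.N E.f E.w :=
  { one := E.form.one
    real := E.form.real
    mul := E.form.mul
    pow := E.form.pow
    sign := E.form.sign
    fricke := E.form.fricke
    good := E.form.good
    bad := fun p hp hpN => by
      have h1 : (1 : ℝ) ≤ Real.sqrt p := by
        rw [Real.one_le_sqrt]
        exact_mod_cast hp.one_le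
      have h2 : ‖coef E.f p‖ ≤ 1 := by
        rcases E.form.bad p hp hpN with h | h | h <;> simp [h]
      exact h2.trans h1 }

open Pool.Agent.Q286.XG in
lemma outE (E : Curve) : Pool.Agent.Q286.XG.OutX (W E) E.Λ (fun ρ => E.Λ ρ = 0 ∧ 0 < ρ.im) 1 1 (rank E) (fun a => Real.exp a)
    (2 * Real.pi / Real.sqrt E.N) ∧
    Pool.Agent.Q286.XG.OutN (W E) E.Λ 1 1 (rank E) (fun a => Real.exp a) (2 * Real.pi / Real.sqrt E.N) := by
  have : NeZero E.N := ⟨E.pos.ne'⟩
  have hN : (0 : ℝ) < E.N := by exact_mod_cast E.pos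
  obtain ⟨L, hm, hQ, h1, h2, k, hk, h3⟩ := exE2 (formW E) E.completed.1 E.completed.2
  have hW : ∀ (a : ℝ) (g : ℝ → ℂ), W E a g = Pool.Agent.Q286.TR.W L a g := fun a g => (h1 a g).symm
  have H := outSelf (Λ := E.Λ) (V := W E) (P := fun ρ => E.Λ ρ = 0 ∧ 0 < ρ.im) jx rx h2 E.completed.1 (c := 1) (r := 1) (by norm_num) hk h3
    (fun a _ f _ => hW a f) (fun ρ => Iff.rfl)
  have HN := outSelfN (Λ := E.Λ) (V := W E) jx jn h2 E.completed.1 (c := 1) (r := 1) (by norm_num) hk h3 (fun a _ f _ => hW a f)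
  have e1 : (fun a : ℝ => Real.exp (2 * a / L.m)) = fun a => Real.exp a := by
    funext a
    rw [hm]
    congr 1
    push_cast
    ring
  have e2 : Real.pi * L.m * L.Q ^ (-(1 / (L.m : ℝ))) = 2 * Real.pi / Real.sqrt E.N := by
    rw [hm, hQ, Real.rpow_neg hN.le, Real.sqrt_eq_rpow]
    push_cast
    ring
  rw [e1, e2] at H HN
  exact ⟨H, HN⟩

/-- **The theorem.** -/
theorem result (E : Curve) :
    (RiemannHypothesis E →
      (∀ (a : ℝ) (ν : ℕ∞), 0 < a → (∃ f, Extremal E a ν f) ∧ ∀ f, Extremal E a ν f →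
        (rank E : ℝ) < W E a f ∧ (∀ g, Extremal E a ν g → g =ᵐ[volume] f) ∧ (∀ s, M f (2 - s) = M f s) ∧
          (∀ s, M f ((starRingEnd ℂ) s) = (starRingEnd ℂ) (M f s)) ∧ ∀ s, M f s = 0 → s.re = 1) ∧
      (∀ b : ℝ, ∃ K A : ℝ, ∀ (a : ℝ) (ν : ℕ∞) (f : ℝ → ℂ), A ≤ a → Large (K * a ^ 2) ν → Extremal E a ν f →
        W E a f ≤ rank E + Real.exp (-(b * a ^ 2 * Real.log a))) ∧
      (∀ R ε : ℝ, 0 < ε → ∃ K A : ℝ, ∀ (a : ℝ) (ν : ℕ∞) (f : ℝ → ℂ), A ≤ a → Large (K * a ^ 2) ν → Extremal E a ν f →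
        ∀ s : ℂ, ‖s - 1‖ ≤ R → ‖M f s - Xred E s‖ ≤ ε) ∧
      (∀ ρ : ℂ, E.Λ ρ = 0 → ρ ≠ 1 → ∀ b : ℝ, ∃ K A : ℝ, ∀ (a : ℝ) (ν : ℕ∞) (f : ℝ → ℂ), A ≤ a → Large (K * a ^ 2) ν → Extremal E a ν f →
        ∃ t : ℝ, M f (1 + t * I) = 0 ∧ |t - ρ.im| ≤ Real.exp (-(b * a ^ 2 * Real.log a))) ∧
      (∀ b : ℝ, b < 4 * Real.pi / Real.sqrt E.N →
        (∃ K A : ℝ, ∀ (a : ℝ) (ν : ℕ∞) (f : ℝ → ℂ), A ≤ a → Large (K * a * Real.exp a) ν → Extremal E a ν f →
          W E a f ≤ rank E + Real.exp (-(b * Real.exp a))) ∧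
        ∀ ρ : ℂ, E.Λ ρ = 0 → ρ ≠ 1 → ∃ K A : ℝ, ∀ (a : ℝ) (ν : ℕ∞) (f : ℝ → ℂ), A ≤ a → Large (K * a * Real.exp a) ν →
          Extremal E a ν f → ∃ t : ℝ, M f (1 + t * I) = 0 ∧ |t - ρ.im| ≤ Real.exp (-(b * Real.exp a)))) ∧
    (¬ RiemannHypothesis E → ∀ n : ℝ → ℕ, Tendsto (fun a : ℝ => (n a : ℝ) / a) atTop atTop →
      ∃ A : ℝ, ∀ a : ℝ, A ≤ a → ∀ B : ℝ, ∃ f, Trig a (n a) f ∧ M f 1 = 1 ∧ W E a f < -B) ∧
    (∀ n : ℝ → ℕ∞, (∀ K : ℝ, ∀ᶠ a in atTop, ∀ j : ℕ, n a = j → K * a ≤ j) →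
      (RiemannHypothesis E ↔ ∀ A : ℝ, ∃ a : ℝ, A ≤ a ∧ ∃ f, Extremal E a (n a) f)) := by
  obtain ⟨H, HN⟩ := outE E
  have e2 : ∀ s : ℂ, (2 : ℂ) * 1 - s = 2 - s := fun s => by ring
  have e4 : 4 * Real.pi / Real.sqrt E.N = 2 * (2 * Real.pi / Real.sqrt E.N) := by ring
  refine ⟨fun hR => ⟨fun a ν ha => ⟨H.ex hR a ν ha, fun f hf => ?_⟩, H.val hR, H.conv hR, H.zer hR, fun b hb => ?_⟩,
    fun hR => H.neg hR, H.iffE⟩
  · obtain ⟨h1, h2, h3, h4, h5⟩ := H.str hR a ν f ha hf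
    exact ⟨h1, h2, fun s => by have := h3 s; rwa [e2] at this, h4, h5⟩
  · rw [e4] at hb
    exact ⟨HN.rateV hR b hb, fun ρ hρ hρ1 => HN.rateZ hR ρ hρ hρ1 b hb⟩

end Pool.Agent.Results.MP_553913_nt.ExtremalFunctions
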