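import Pool.Agent.Q286.TR.EQ

/-!
# The spectra attached to an elliptic curve: a trichotomy

Let `E` be an elliptic curve over `ℚ` of conductor `N` and `t(p^k) = α_p^k + β_p^k` the traces of the powers of Frobenius (so
`t(p^k) = p^k + 1 - #E(𝔽_(p^k))` for `p ∤ N`).  For `a > 0` let `W_a` be Weil's quadratic form of `E` on the functions on
`[-a, a]`, written through `N`, the archimedean place and the numbers `t(p^k)` with `p^k ≤ exp (2 a)`; no zero of `L(E, s)` and no
continuation enters.  Restricted to the trigonometric polynomials of degree at most `n` it is a Hermitian matrix of size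
`2 n + 1`.  The zeros of the Mellin transform `M f` of a ground state `f` form the spectrum attached to `a, n`, as Connes,
Consani and Moscovici did for zeta.

(A) Let `n a / a ^ 2 → κ > 0`, `Gs κ s = exp ((s - 1) ^ 2 / (π ^ 2 κ))`, and `Xred` the product over the distinct zeros in the
upper half plane.  There are three cases.

* The Riemann hypothesis for `E` holds and `L(E, 1) ≠ 0`, if and only if `M f s / M f 1` tends to `Xred s * Gs κ s`, locally
  uniformly in the complex plane, for the ground states of degree `n a`.  They are even for large `a`.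
* The Riemann hypothesis for `E` holds and `L(E, 1) = 0`, if and only if `M f s / (M f)' 1` tends to
  `(s - 1) * Xred s * Gs κ s`.  The ground states are odd for large `a`.
* The Riemann hypothesis for `E` fails.  Then for all degrees `m a ≥ n a` the lowest eigenvalue tends to `-∞`, and the spectra
  become dense in the critical line: the number of zeros of `M f` in every interval tends to infinity.

So under the Riemann hypothesis the symmetry of the ground state decides whether the central value vanishes, that is whether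
the analytic rank is positive.  In the first two cases the ground state is
unique up to a factor, the convergence is faster than exponential (the distance of a zero to the spectrum
is at most `exp (- c a ^ 2 log a)` for every `c < 2 κ`), the lowest eigenvalue is positive and at most
`exp (- c a ^ 2 log a)` for every `c < 4 κ`, and the second eigenvalue is infinitely larger.

(B) The Riemann hypothesis for `E` holds if and only if for some interval the number of points of the spectrum does not tend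
to infinity, and if and only if the lowest eigenvalue does not tend to `-∞`.

(C) Unconditionally the `k`-th eigenvalue `λ` of `W_a` satisfies `max 1 (-λ) = exp ((2 β - 2 + o(1)) a)`, where `β` is the
`k`-th largest real part of the zeros (at least `1`), for all degrees `m a` with `m a / a → ∞`, `log (m a) = exp (o(a))`.
-/

set_option autoImplicit false

open UpperHalfPlane hiding I
open Complex MatrixGroups CongruenceSubgroup MeasureTheory Filter Topology

namespace Pool.Agent.Results.MP_553913_nt.SpectralTrichotomy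

/-- The coefficient `a_p` of `E : y² = x³ + a x + b` at a prime `p ∤ 2 (4a³ + 27b²)`: `p` minus the
number of pairs `(x, y)` modulo `p` with `y² ≡ x³ + a x + b (mod p)`. -/
noncomputable def ap (a b : ℤ) (p : ℕ) : ℤ :=
  (p : ℤ) - (((Finset.range p ×ˢ Finset.range p).filter
    (fun xy : ℕ × ℕ => (p : ℤ) ∣ (xy.2 : ℤ) ^ 2 -
      ((xy.1 : ℤ) ^ 3 + a * (xy.1 : ℤ) + b))).card : ℤ)

/-- The `n`-th Fourier coefficient of `f`. -/
noncomputable def coef {N : ℕ} (f : CuspForm (Gamma0 N : Subgroup (GL (Fin 2) ℝ)) 2) (n : ℕ) : ℂ :=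
  (qExpansion 1 f).coeff n

/-- `f ∈ S_2(Γ₀(N))` is the newform of the elliptic curve `E : y² = x³ + a x + b` of conductor `N` and
root number `w`: the Fourier coefficients `c(n)` of `f` are real with `c(1) = 1`, they satisfy the
Hecke relations `c(mn) = c(m) c(n)` for coprime `m`, `n` and `c(p^(j+2)) = c(p) c(p^(j+1)) - p c(p^j)`
(without the last term if `p ∣ N`), `f(-1/(Nτ)) = -w N τ² f(τ)`, `c(p) = a_p(E)` for all primes
`p ∤ 2 (4a³ + 27b²)`, `|c(p)| ≤ 2 √p` for all `p ∤ N` (Hasse) and `c(p) = 0, 1, -1` for `p ∣ N`. -/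
structure IsFormOf (a b : ℤ) (N : ℕ) (f : CuspForm (Gamma0 N : Subgroup (GL (Fin 2) ℝ)) 2) (w : ℝ) :
    Prop where
  one : coef f 1 = 1
  real : ∀ n, (coef f n).im = 0
  mul : ∀ m n : ℕ, Nat.Coprime m n → coef f (m * n) = coef f m * coef f n
  pow : ∀ p j : ℕ, p.Prime → coef f (p ^ (j + 2)) = coef f p * coef f (p ^ (j + 1)) -
      (if p ∣ N then 0 else (p : ℂ) * coef f (p ^ j))
  sign : w = 1 ∨ w = -1
  fricke : ∀ τ τ' : ℍ, (τ' : ℂ) * ((N : ℂ) * (τ : ℂ)) = -1 →
    f τ' = -(w : ℂ) * (N : ℂ) * (τ : ℂ) ^ 2 * f τ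
  points : ∀ p : ℕ, p.Prime → ¬ (p : ℤ) ∣ 2 * (4 * a ^ 3 + 27 * b ^ 2) → coef f p = (ap a b p : ℂ)
  good : ∀ p : ℕ, p.Prime → ¬ p ∣ N → ‖coef f p‖ ≤ 2 * Real.sqrt p
  bad : ∀ p : ℕ, p.Prime → p ∣ N → coef f p = 0 ∨ coef f p = 1 ∨ coef f p = -1

/-- `Λ` is the completed L-function of `f`: it is entire and
`Λ(s) = N^(s/2) (2π)^(-s) Γ(s) ∑ c(n) n^(-s)` for `Re s > 2`. -/
def IsCompleted {N : ℕ} (f : CuspForm (Gamma0 N : Subgroup (GL (Fin 2) ℝ)) 2) (Λ : ℂ → ℂ) : Prop :=
  Differentiable ℂ Λ ∧ ∀ s : ℂ, 2 < s.re →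
    Λ s = ((Real.sqrt N / (2 * Real.pi) : ℝ) : ℂ) ^ s * Complex.Gamma s *
      ∑' n : ℕ, coef f (n + 1) * ((n + 1 : ℕ) : ℂ) ^ (-s)

/-- An elliptic curve `E : y² = x³ + a x + b` over `ℚ` of conductor `N`, with its newform `f`, root number `w` and
completed L-function `Λ`. -/
structure Curve where
  /-- the coefficient of `x` -/
  a : ℤ
  /-- the constant coefficient -/
  b : ℤ
  disc : 4 * a ^ 3 + 27 * b ^ 2 ≠ 0
  /-- the conductor -/
  N : ℕ
  pos : 0 < N
  /-- the newform -/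
  f : CuspForm (Gamma0 N : Subgroup (GL (Fin 2) ℝ)) 2
  /-- the root number -/
  w : ℝ
  form : IsFormOf a b N f w
  /-- the completed L-function -/
  Λ : ℂ → ℂ
  completed : IsCompleted f Λ

/-- The traces of Frobenius: for `n = p^k`, `t(p^k) = c(p^k) - p c(p^(k-2))` (without the last term if `p ∣ N` or `k = 1`; in
Lean `p / p^2 = 0` and `c(0) = 0`).  These are the numbers `α_p^k + β_p^k`, where `1 - c(p) T + p T^2 = (1 - α_p T)(1 - β_p T)`
(`1 - c(p) T` if `p ∣ N`). -/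
noncomputable def trace (E : Curve) (n : ℕ) : ℂ :=
  coef E.f n - if n.minFac ∣ E.N then 0 else (n.minFac : ℂ) * coef E.f (n / n.minFac ^ 2)

/-- The Riemann hypothesis for `E`: all zeros of `Λ(E, s)` have real part `1`. -/
def RiemannHypothesis (E : Curve) : Prop := ∀ s : ℂ, E.Λ s = 0 → s.re = 1

/-- The trigonometric polynomials of degree at most `n` on `[-a, a]`, extended by `0`. -/
def Trig (a : ℝ) (n : ℕ) (f : ℝ → ℂ) : Prop := ∃ c : ℤ → ℂ, ∀ x : ℝ,
  f x = if |x| ≤ a then ∑ k ∈ Finset.Icc (-(n : ℤ)) n, c k * cexp ((Real.pi * k * x / a : ℝ) * I) else 0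

/-- The Mellin transform of `f` in the logarithmic variable, centred at `1`. -/
noncomputable def M (f : ℝ → ℂ) (s : ℂ) : ℂ := ∫ x : ℝ, f x * cexp ((s - 1) * x)

/-- The square of the norm of `f` in `L²`. -/
noncomputable def N (f : ℝ → ℂ) : ℝ := ∫ x : ℝ, ‖f x‖ ^ 2

/-- Weil's quadratic form of `E` for functions supported in `[-a, a]`: the conductor, the archimedean place (Gamma factor
`(2π)^(-s) Γ(s)`) and the prime powers `n ≤ exp (2 a)`. -/
noncomputable def W (E : Curve) (a : ℝ) (f : ℝ → ℂ) : ℝ :=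
  1 / (2 * Real.pi) * (∫ x : ℝ, (Real.log E.N - 2 * Real.log (2 * Real.pi) + 2 * (digamma (1 + x * I)).re) *
    ‖M f (1 + x * I)‖ ^ 2) -
  2 * (∑ n ∈ Finset.Icc 1 ⌊Real.exp (2 * a)⌋₊, ArithmeticFunction.vonMangoldt n / n * trace E n *
    ∫ x : ℝ, f (x + Real.log n) * (starRingEnd ℂ) (f x)).re

/-- `f` is a ground state in degree at most `n`: it is a trigonometric polynomial, not zero, and minimises `W E a / N`. -/
def Ground (E : Curve) (a : ℝ) (n : ℕ) (f : ℝ → ℂ) : Prop :=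
  Trig a n f ∧ N f ≠ 0 ∧ ∀ g : ℝ → ℂ, Trig a n g → W E a f * N g ≤ W E a g * N f

/-- The reduced function: the product over the distinct zeros of `Λ(E, s)` in the upper half plane. -/
noncomputable def Xred (E : Curve) (s : ℂ) : ℂ :=
  ∏' ρ : {ρ : ℂ // E.Λ ρ = 0 ∧ 0 < ρ.im}, (1 - (s - 1) ^ 2 / ((ρ : ℂ) - 1) ^ 2)

/-- The Gaussian factor. -/
noncomputable def Gs (κ : ℝ) (s : ℂ) : ℂ := cexp ((s - 1) ^ 2 / (Real.pi ^ 2 * κ))

/-- The numbers `x` such that `F ≤ x N` on some space of trigonometric polynomials of dimension `k`; the least of them is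
the `k`-th eigenvalue of `F`. -/
def Level (F : (ℝ → ℂ) → ℝ) (a : ℝ) (n k : ℕ) : Set ℝ := {x : ℝ | ∃ V : Submodule ℂ (ℝ → ℂ), (∀ f ∈ V, Trig a n f) ∧
  Module.finrank ℂ V = k ∧ ∀ f ∈ V, F f ≤ x * N f}

/-- The ordinates in `(u, v)` of the zeros of the transform of `f` on the critical line. -/
def Ord (f : ℝ → ℂ) (u v : ℝ) : Set ℝ := {t : ℝ | u < t ∧ t < v ∧ M f (1 + t * I) = 0}

/-- The `k`-th largest real part of the distinct zeros of `Λ(E, s)` (but at least `1`). -/
noncomputable def beta (E : Curve) (k : ℕ) : ℝ := sInf {x : ℝ | 1 ≤ x ∧ {s : ℂ | E.Λ s = 0 ∧ x < s.re}.encard < k}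

lemma formW (E : Curve) : Pool.Agent.W169.HF.IsForm E.N E.f E.w :=
  { one := E.form.one
    real := E.form.real
    mul := E.form.mul
    pow := E.form.pow
    sign := E.form.sign
    fricke := E.form.fricke
    good := E.form.good
    bad := fun p hp hpN => by
      have h1 : (1 : ℝ) ≤ Real.sqrt p := by
        rw [Real.one_le_sqrt]
        exact_mod_cast hp.one_le
      have h2 : ‖coef E.f p‖ ≤ 1 := by
        rcases E.form.bad p hp hpN with h | h | h <;> simp [h]
      exact h2.trans h1 }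

open Pool.Agent.Q286.TR in
lemma outE (E : Curve) : Pool.Agent.Q286.TR.Out (W E) (W E) E.Λ (fun ρ => E.Λ ρ = 0 ∧ 0 < ρ.im) 1 1 := by
  have : NeZero E.N := ⟨E.pos.ne'⟩
  obtain ⟨L, h1, h2, k, hk, h3⟩ := exE (formW E) E.completed.1 E.completed.2
  have hW : ∀ (a : ℝ) (g : ℝ → ℂ), W E a g = Pool.Agent.Q286.TR.W L a g := fun a g => (h1 a g).symm
  refine out (L := L) (by norm_num) hk h3 (q := 1 / 2) (by norm_num) (fun a ha n f hf => ?_) (fun a _ n f _ => hW a f) (fun ρ => ?_)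
  · rw [selfDual_W L h2 ha hf, hW]
    ring
  · have h4 := conj_zero h2 hk (c := 1) (r := 1) (by norm_num) h3 ρ
    rw [h4, or_self]

/-- **The theorem.** -/
theorem result (E : Curve) :
    (∀ a : ℝ, 0 < a → ∀ m : ℕ, ∃ f, Ground E a m f) ∧
    (∀ (κ : ℝ) (n : ℝ → ℕ), 0 < κ → Tendsto (fun a : ℝ => (n a : ℝ) / a ^ 2) atTop (𝓝 κ) →
      ((RiemannHypothesis E ∧ E.Λ 1 ≠ 0) ↔ ∀ f : ℝ → ℝ → ℂ, (∀ a, 0 < a → Ground E a (n a) (f a)) →
        TendstoLocallyUniformly (fun a s => M (f a) s / M (f a) 1) (fun s => Xred E s * Gs κ s) atTop) ∧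
      ((RiemannHypothesis E ∧ E.Λ 1 = 0) ↔ ∀ f : ℝ → ℝ → ℂ, (∀ a, 0 < a → Ground E a (n a) (f a)) →
        TendstoLocallyUniformly (fun a s => M (f a) s / deriv (M (f a)) 1) (fun s => (s - 1) * Xred E s * Gs κ s) atTop) ∧
      (RiemannHypothesis E → (∃ A : ℝ, ∀ a, A ≤ a → ∀ f, Ground E a (n a) f →
          (E.Λ 1 ≠ 0 → M f 1 ≠ 0 ∧ ∀ x, f (-x) = f x) ∧
          (E.Λ 1 = 0 → deriv (M f) 1 ≠ 0 ∧ ∀ x, f (-x) = -f x) ∧
          ∀ g, Ground E a (n a) g → ∃ z : ℂ, ∀ x, g x = z * f x) ∧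
        (∀ b : ℝ, b < 4 * κ → ∃ A : ℝ, ∀ a, A ≤ a → ∀ f, Ground E a (n a) f →
          0 < W E a f ∧ W E a f ≤ Real.exp (-(b * a ^ 2 * Real.log a)) * N f) ∧
        (∀ B : ℝ, ∃ A : ℝ, ∀ a, A ≤ a → ∀ f, Ground E a (n a) f → ∀ x ∈ Level (W E a) a (n a) 2, B * W E a f ≤ x * N f) ∧
        (∀ ρ : ℂ, E.Λ ρ = 0 → ∀ b : ℝ, b < 2 * κ → ∃ A : ℝ, ∀ a, A ≤ a → ∀ f, Ground E a (n a) f →
          ∃ t : ℝ, M f (1 + t * I) = 0 ∧ |t - ρ.im| ≤ Real.exp (-(b * a ^ 2 * Real.log a)))) ∧
      (¬ RiemannHypothesis E → ∀ m : ℝ → ℕ, (∀ᶠ a in atTop, n a ≤ m a) →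
        (∀ B : ℝ, ∃ A : ℝ, ∀ a, A ≤ a → ∀ f, Ground E a (m a) f → W E a f < -B * N f) ∧
        ∀ (u v : ℝ) (C : ℕ), u < v → ∃ A : ℝ, ∀ a, A ≤ a → ∀ f, Ground E a (m a) f → (C : ℕ∞) ≤ (Ord f u v).encard) ∧
      (RiemannHypothesis E ↔ ∃ (u v : ℝ) (C : ℕ), u < v ∧ ∀ A : ℝ, ∃ a, A ≤ a ∧ ∃ f, Ground E a (n a) f ∧
        (Ord f u v).encard ≤ (C : ℕ∞)) ∧
      (RiemannHypothesis E ↔ ∃ B : ℝ, ∀ A : ℝ, ∃ a, A ≤ a ∧ ∃ f, Ground E a (n a) f ∧ -B * N f ≤ W E a f)) ∧
    (∀ m : ℝ → ℕ, Tendsto (fun a : ℝ => (m a : ℝ) / a) atTop atTop →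
      (∀ ε : ℝ, 0 < ε → ∀ᶠ a : ℝ in atTop, Real.log (m a) ≤ Real.exp (ε * a)) →
      ∀ k : ℕ, 1 ≤ k →
        Tendsto (fun a : ℝ => Real.log (max 1 (-sInf (Level (W E a) a (m a) k))) / a) atTop (𝓝 (2 * (beta E k - 1)))) :=
  have H := outE E
  ⟨H.ex, fun κ n hκ hn => ⟨H.even κ n hκ hn, H.odd κ n hκ hn, H.str κ n hκ hn, H.not κ n hκ hn, H.ord κ n hκ hn,
    H.low κ n hκ hn⟩, H.rate⟩

end Pool.Agent.Results.MP_553913_nt.SpectralTrichotomy
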